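import Pool.Agent.Helper27.BI.R.AsmR
import Pool.Agent.Helper18.BI.R.StR4
import Pool.Agent.Helper34.BI.H.AsmCross

/-!
# Project BI, stage 4 (R), module PAR4
-/

set_option autoImplicit false

open scoped Manifold ContDiff Topology ComplexConjugate
open Set Filter Pool.Agent.Helper65.Barb Pool.Agent.Helper18.BI
open Pool.Agent.Helper70.BI (I4 IsW)
open Pool.Agent.Helper27.H

namespace Pool.Agent.Helper27.R

theorem m_PAR4 (h : StPAR) : Pool.Agent.Helper18.BI.R.StPAR4 := by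
  intro F W hW hF r hr
  obtain ⟨η₀, hη₀, hh⟩ := h F W hW
    (Pool.Agent.Helper27.BI.EmbOn.mono hF fun p hp => Or.inl (Or.inr hp))
  have hm : 0 < min η₀ r := lt_min hη₀ hr
  have h1 : min η₀ r / 2 < min η₀ r := by linarith
  obtain ⟨F', U, hF', hU, hs, hE, hp, hc⟩ := hh (min η₀ r / 2)
    ⟨by positivity, h1.trans_le (min_le_left _ _)⟩
  obtain ⟨φ, hφ⟩ := exists_thin hF'
  refine ⟨min η₀ r / 2, ⟨by positivity, h1.trans_le (min_le_right _ _)⟩, F', φ, U, hF', hU, hs, hE,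
    hφ, hc φ hφ, fun p hp' => ?_⟩
  obtain ⟨s, x⟩ := p
  have hs' : s = 1 / 2 := hp'.1
  subst hs'
  rw [hp x hp']
  congr 1
  refine Prod.ext rfl (Prod.ext rfl ?_)
  show x.2 + 0 = x.2
  rw [add_zero]

/-- the homotopy theorem for loops of arcs, from the normalization -/
theorem hArcH'' (hNORM : StNORM) : StArcH := hArcH_of' Pool.Agent.Helper34.BI.H.hCROSS hNORM

/-- **PAR4** -/
theorem hPAR4_of (hNORM : StNORM) (hHMain : Pool.Agent.Helper18.BI.H.StHMain) :
    Pool.Agent.Helper18.BI.R.StPAR4 :=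
  m_PAR4 (hPAR_of Pool.Agent.Helper34.BI.H.hCROSS hNORM hHMain)

end Pool.Agent.Helper27.R
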