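import Pool.Agent.Helper27.BI.R.Par
import Pool.Agent.Helper27.BI.H.Hat

/-!
# Project BI, stage 4 (R), module PAR: the class of a parallel copy of the fixed cuff
-/

set_option autoImplicit false

open scoped Manifold ContDiff Topology ComplexConjugate
open Set Filter Pool.Agent.Helper65.Barb Pool.Agent.Helper18.BI
open Pool.Agent.Helper70.BI (I4 LD IsW MW ld_iff embOn_iff ld_comp embOn_comp)
open Pool.Agent.Helper27.H
open Pool.Agent.Helper18.BI.H (StHMain)

namespace Pool.Agent.Helper27.R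

open Rad (rad fr fr_prf fr_bounds rad_embOn rad_id rsq_rad)

/-- **PAR.**  A germ whose second cuff is a parallel copy of the fixed cuff has class `1` or `W`. -/
def StPAR : Prop :=
  ∀ F W : R4 → R4, IsW W → EmbOn I4 F (sph 1) → ∃ η₀ > 0, ∀ η ∈ Ioo (0 : ℝ) η₀,
    ∃ (F' : R4 → R4) (U : Set R4), EmbOn I4 F' SP ∧ IsOpen U ∧ sph 1 ⊆ U ∧ EqOn F F' U ∧
      (∀ x : R3, ((1 / 2, x) : R4) ∈ sph 0 → F' (1 / 2, x) = F (1 / 2 + η, x + (1, 0))) ∧
      ∀ φ, Thin I4 F' φ → CIsot I4 φ (fun x => x) ∨ CIsot I4 φ W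

section
variable {F : R4 → R4} {O : Set R4} {δ : ℝ} (hδ : δ ∈ Ioo (0 : ℝ) (1 / 100))
  (hF : EmbOn I4 F O) (hO : bx δ ⊆ O)
include hδ hF hO

theorem par_emb {ζ : ℝ} (hζ : ζ ≠ 0) (hζ' : |ζ| < δ) :
    EmbOn I4 (fun p => F (rad (fr δ) 1 (kap ζ p))) SP := by
  have h1 := frad_emb hδ hF hO
  have h2 : EmbOn I4 ((fun p => F (rad (fr δ) 1 p)) ∘ kap ζ) SP := by
    refine embOn_comp h1 (kap_embOn ζ SP) fun p hp => ?_
    have hp' : p ∈ FB := by
      rcases hp with (h | h) | h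
      · exact Or.inl (Or.inl ⟨h.1, h.2.le⟩)
      · exact Or.inl (Or.inr ⟨h.1, h.2.le⟩)
      · exact Or.inr h
    obtain ⟨a, b, c⟩ := kap_FB hζ hp'
    refine ⟨⟨a.trans_lt hζ', b⟩, ?_⟩
    have h0 : 0 ≤ rsq 1 (kap ζ p) := by
      unfold rsq nsq
      positivity
    rcases h0.lt_or_eq with h | h
    · exact h
    · exfalso
      rcases c h.symm with rfl | rfl
      · rcases hp with (h | h) | h
        · have := h.2; norm_num [rsq, nsq] at this
        · have := h.2; norm_num [rsq, nsq] at this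
        · have := h.2.1; norm_num at this
      · rcases hp with (h | h) | h
        · have := h.2; norm_num [rsq, nsq] at this
        · have := h.2; norm_num [rsq, nsq] at this
        · have := h.2.2.1; norm_num at this
  exact h2

omit hF hO in
theorem par_near {ζ : ℝ} (hζ : ζ ≠ 0) : ∃ U : Set R4, IsOpen U ∧ sph 1 ⊆ U ∧
    ∀ p ∈ U, rad (fr δ) 1 (kap ζ p) = p := by
  have hz : 0 < |ζ| := abs_pos.2 hζ
  have h0 := hδ.1
  refine ⟨{p | |p.1 - 1 / 2| < |ζ| / 4} ∩ ({p | |rsq 1 p - 1 / 25| < δ} ∩ {p | 3 / 4 < p.2.1}),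
    ?_, ?_, ?_⟩
  · refine (isOpen_lt (f := fun p : R4 => |p.1 - 1 / 2|) (by fun_prop) continuous_const).inter
      ((isOpen_lt (f := fun p : R4 => |rsq 1 p - 1 / 25|)
        ((continuous_rsq 1).sub continuous_const).abs continuous_const).inter
      (isOpen_lt continuous_const (continuous_fst.comp continuous_snd)))
  · rintro p ⟨h1, h2⟩
    refine ⟨?_, ?_, ?_⟩
    · show |p.1 - 1 / 2| < |ζ| / 4
      rw [h1, sub_self, abs_zero]
      positivity
    · show |rsq 1 p - 1 / 25| < δ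
      rw [h2, sub_self, abs_zero]
      exact h0
    · have h3 : (p.2.1 - 1) ^ 2 + p.2.2.re ^ 2 + p.2.2.im ^ 2 = 1 / 25 := h2
      show 3 / 4 < p.2.1
      nlinarith [sq_nonneg p.2.2.re, sq_nonneg p.2.2.im]
  · rintro p ⟨h1, h2, h3⟩
    have h1 : |p.1 - 1 / 2| < |ζ| / 4 := h1
    have h2 : |rsq 1 p - 1 / 25| < δ := h2
    have h3 : 3 / 4 < p.2.1 := h3
    rw [kap_near1 hζ h1.le h3.le]
    have h4 := abs_lt.1 h2
    exact rad_id h0 (by linarith) (by linarith) (by linarith [hδ.2])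

omit hF hO in
theorem par_sph0 {ζ : ℝ} (hζ : ζ ≠ 0) {p : R4} (hp : p ∈ sph 0) :
    rad (fr δ) 1 (kap ζ p) = (1 / 2 - ζ, p.2 + (1, 0)) := by
  obtain ⟨h1, h2⟩ := hp
  have h0 := hδ.1
  have h3 : (p.2.1 - 0) ^ 2 + p.2.2.re ^ 2 + p.2.2.im ^ 2 = 1 / 25 := h2
  have h4 : p.2.1 ≤ 1 / 4 := by nlinarith [sq_nonneg p.2.2.re, sq_nonneg p.2.2.im]
  rw [kap_near0 hζ (by rw [h1, sub_self, abs_zero]; positivity) h4]
  have h5 : rsq 1 ((p.1 - ζ, p.2.1 + 1, p.2.2) : R4) = 1 / 25 := by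
    show (p.2.1 + 1 - 1) ^ 2 + p.2.2.re ^ 2 + p.2.2.im ^ 2 = 1 / 25
    rw [← h3]
    ring
  rw [rad_id h0 (by rw [h5]; linarith) (by rw [h5]; linarith) (by rw [h5]; norm_num), h1]
  refine Prod.ext rfl (Prod.ext rfl ?_)
  show p.2.2 = p.2.2 + 0
  rw [add_zero]

end

/-- the point of the rotating copy -/
noncomputable def rot (η : ℝ) (z : ℝ × R4) : R4 :=
  (1 / 2 - η * Real.cos (Real.pi * z.1),
    ((1 + η * Real.sin (Real.pi * z.1)) * z.2.2.1 + 1,
      ((1 + η * Real.sin (Real.pi * z.1) : ℝ) : ℂ) * z.2.2.2))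

theorem continuous_rot (η : ℝ) : Continuous (rot η) := by
  unfold rot
  fun_prop

theorem rsq_rot (η : ℝ) (u : ℝ) {p : R4} (hp : p ∈ sph 0) :
    rsq 1 (rot η (u, p)) = (1 + η * Real.sin (Real.pi * u)) ^ 2 / 25 := by
  have h3 : (p.2.1 - 0) ^ 2 + p.2.2.re ^ 2 + p.2.2.im ^ 2 = 1 / 25 := hp.2
  show ((1 + η * Real.sin (Real.pi * u)) * p.2.1 + 1 - 1) ^ 2 +
    (((1 + η * Real.sin (Real.pi * u) : ℝ) : ℂ) * p.2.2).re ^ 2 +
    (((1 + η * Real.sin (Real.pi * u) : ℝ) : ℂ) * p.2.2).im ^ 2 = _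
  rw [Complex.re_ofReal_mul, Complex.im_ofReal_mul]
  have : (1 + η * Real.sin (Real.pi * u)) ^ 2 / 25 =
    (1 + η * Real.sin (Real.pi * u)) ^ 2 * (1 / 25) := by ring
  rw [this, ← h3]
  ring

theorem rot_mem {δ η : ℝ} (h0 : 0 < η) (h1 : η < δ) (h2 : δ < 1 / 100) {u : ℝ} {p : R4}
    (hp : p ∈ sph 0) : rot η (u, p) ∈ bx δ := by
  have c1 := Real.neg_one_le_cos (Real.pi * u)
  have c2 := Real.cos_le_one (Real.pi * u)
  have s1 := Real.neg_one_le_sin (Real.pi * u)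
  have s2 := Real.sin_le_one (Real.pi * u)
  refine ⟨?_, ?_⟩
  · show |1 / 2 - η * Real.cos (Real.pi * u) - 1 / 2| ≤ δ
    rw [abs_le]
    constructor <;> nlinarith
  · rw [rsq_rot η u hp, abs_le]
    have hs : |η * Real.sin (Real.pi * u)| ≤ η := by
      rw [abs_le]
      constructor <;> nlinarith
    set y := η * Real.sin (Real.pi * u) with hy
    have h3 := abs_le.1 hs
    constructor <;> nlinarith

theorem rot_off {η : ℝ} (h0 : 0 < η) (h1 : η < 1) {u : ℝ} {p : R4} (hp : p ∈ sph 0) :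
    rot η (u, p) ∉ sph 1 := by
  rintro ⟨h2, h3⟩
  have h2 : 1 / 2 - η * Real.cos (Real.pi * u) = 1 / 2 := h2
  have h4 : Real.cos (Real.pi * u) = 0 := by
    have : η * Real.cos (Real.pi * u) = 0 := by linarith
    rcases mul_eq_zero.1 this with h | h
    · exact absurd h h0.ne'
    · exact h
  rw [rsq_rot η u hp] at h3
  have h5 := Real.sin_sq_add_cos_sq (Real.pi * u)
  rw [h4] at h5
  have h6 : (1 + η * Real.sin (Real.pi * u)) ^ 2 = 1 := by linarith
  have h7 : η * Real.sin (Real.pi * u) * (2 + η * Real.sin (Real.pi * u)) = 0 := by linarith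
  have s1 := Real.neg_one_le_sin (Real.pi * u)
  rcases mul_eq_zero.1 h7 with h | h
  · rcases mul_eq_zero.1 h with h | h
    · exact h0.ne' h
    · rw [h] at h5
      norm_num at h5
  · nlinarith

/-- **PAR.** -/
theorem m_PAR (hCls : StCls) (hCROSS : StCROSS) (hCUSP : StCUSP) (hNORM : StNORM)
    (hHMain : StHMain) : StPAR := by
  intro F W hW hF
  obtain ⟨O, hO, hsO, hFO, hFc⟩ := emb_open isCompact_sph1 hF
  obtain ⟨δ, hδ, hbO⟩ := exists_bx hO hsO
  have hδ0 := hδ.1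
  have hδ1 := hδ.2
  refine ⟨δ, hδ.1, fun η hη => ?_⟩
  have hη0 := hη.1
  have hηδ := hη.2
  have hm : -η ≠ 0 := neg_ne_zero.2 hη.1.ne'
  have habs : |η| < δ := by rw [abs_of_pos hη.1]; exact hη.2
  have habs' : |-η| < δ := by rw [abs_neg]; exact habs
  have E1 := par_emb hδ hFO hbO hη.1.ne' habs
  have E2 := par_emb hδ hFO hbO hm habs'
  obtain ⟨U1, hU1, hs1, e1⟩ := par_near hδ hη.1.ne'
  obtain ⟨U2, hU2, hs2, e2⟩ := par_near hδ hm
  refine ⟨fun p => F (rad (fr δ) 1 (kap (-η) p)), U2, E2, hU2, hs2,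
    fun p hp => by simp only [e2 p hp], fun x hx => ?_, fun φ' hφ' => ?_⟩
  · have := par_sph0 hδ hm hx
    simp only [this, sub_neg_eq_add]
  · obtain ⟨φ, hφ⟩ := exists_thin E1
    have k1 := par_cls hδ hFO hbO hCls hCROSS hCUSP hNORM hW hη.1 hη.2 hφ
    have k2 := hHMain (fun p => F (rad (fr δ) 1 (kap η p)))
      (fun p => F (rad (fr δ) 1 (kap (-η) p))) (U1 ∩ U2) (fun z => F (rot η z)) W φ φ' hW E1 E2
      (hU1.inter hU2) (subset_inter hs1 hs2)
      (fun p hp => by simp only [e1 p hp.1, e2 p hp.2]) ?_ ?_ ?_ ?_ hφ hφ'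
    · have k3 : WR W φ φ' := k2
      exact WR.trans hW (Pool.Agent.Helper27.BI.ci_refl) k1 k3
    · refine hFc.comp (continuous_rot η).continuousOn ?_
      rintro ⟨u, p⟩ ⟨-, hp⟩
      exact hbO (rot_mem hη0 hηδ hδ1 hp)
    · intro p hp
      have h1 := par_sph0 hδ hη.1.ne' hp
      have h2 : rot η (0, p) = (1 / 2 - η, p.2 + (1, 0)) := by
        unfold rot
        simp only [mul_zero, Real.cos_zero, Real.sin_zero, mul_one, add_zero, one_mul,
          Complex.ofReal_one]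
        refine Prod.ext rfl (Prod.ext rfl ?_)
        show p.2.2 = p.2.2 + 0
        rw [add_zero]
      simp only [h1, h2]
    · intro p hp
      have h1 := par_sph0 hδ hm hp
      have h2 : rot η (1, p) = (1 / 2 + η, p.2 + (1, 0)) := by
        unfold rot
        simp only [mul_one, Real.cos_pi, Real.sin_pi, mul_zero, add_zero, one_mul,
          Complex.ofReal_one]
        refine Prod.ext ?_ (Prod.ext rfl ?_)
        · show 1 / 2 - η * -1 = 1 / 2 + η
          ring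
        · show p.2.2 = p.2.2 + 0
          rw [add_zero]
      simp only [h1, h2, sub_neg_eq_add]
    · rintro u - p hp ⟨q, hq, hqe⟩
      have h1 : F q = F (rot η (u, p)) := by
        have := e1 q (hs1 hq)
        simp only [this] at hqe
        exact hqe
      have h2 := hFO.2 (hsO hq) (hbO (rot_mem hη0 hηδ hδ1 hp)) h1
      rw [h2] at hq
      exact rot_off hη0 (by linarith) hp hq

end Pool.Agent.Helper27.R
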