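import Pool.Agent.Helper27.BI.R.M_MULT
import Pool.Agent.Helper27.BI.R.M_PAR
import Pool.Agent.Helper27.BI.H.AsmH
import Pool.Agent.Helper27.BI.H.M_CUM

/-!
# Project BI, stage 4 (R): the modules MULT, INV, PAR, and the cusp family, unconditionally
-/

set_option autoImplicit false

namespace Pool.Agent.Helper27.R

open Pool.Agent.Helper27.H

theorem hMULT : Pool.Agent.Helper18.BI.R.StMULT := m_MULT hCH4 hFRAME hTHK hPhi
theorem hINV : Pool.Agent.Helper18.BI.R.StINV :=
  m_INV hCH4 hFRAME hTHK hPhi Pool.Agent.Helper18.BI.hCI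
theorem hCUSP : StCUSP := m_CUT m_CUM

/-- **PAR**, from the crossing lemma, the normalization and the homotopy theorem -/
theorem hPAR_of (hCROSS : StCROSS) (hNORM : StNORM)
    (hHMain : Pool.Agent.Helper18.BI.H.StHMain) : StPAR :=
  m_PAR hCls hCROSS hCUSP hNORM hHMain

/-- the homotopy theorem for loops of arcs, from the crossing lemma and the normalization -/
theorem hArcH_of' (hCROSS : StCROSS) (hNORM : StNORM) : StArcH :=
  hArcH_of hCROSS m_CUM hNORM

end Pool.Agent.Helper27.R
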