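import Pool.Agent.Helper27.BI.R.Rad
import Pool.Agent.Helper27.BI.H.StH1
import Pool.Agent.Helper27.BI.GBasic

/-!
# Project BI, stage 4 (R): the map `kap`, which moves the first ball parallel to the second one

`kap ζ` is a diffeomorphism of four-space; near the flat ball `flat 0` it is the translation by `(-ζ, 1, 0)`, near the
flat ball `flat 1` it is the identity; the image of the bar does not meet the vertical line through the centre of
`flat 1`.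
-/

set_option autoImplicit false

open scoped Manifold ContDiff Topology ComplexConjugate
open Set Filter Pool.Agent.Helper65.Barb Pool.Agent.Helper18.BI
open Pool.Agent.Helper70.BI (I4 LD ld_iff embOn_iff)

namespace Pool.Agent.Helper27.R

/-- an embedding from a smooth left inverse -/
theorem embOn_of_left {f g : R4 → R4} (hf : ContDiff ℝ ∞ f) (hg : ContDiff ℝ ∞ g)
    (h : ∀ x, g (f x) = x) (L : Set R4) : EmbOn I4 f L := by
  rw [embOn_iff]
  refine ⟨fun p _ => ⟨Eventually.of_forall fun q => hf.contDiffAt, ?_⟩, fun p _ q _ e => ?_⟩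
  · intro v w hvw
    have h1 : HasFDerivAt f (fderiv ℝ f p) p := (hf.differentiable (by simp) p).hasFDerivAt
    have h2 : HasFDerivAt g (fderiv ℝ g (f p)) (f p) := (hg.differentiable (by simp) _).hasFDerivAt
    have h3 : HasFDerivAt (fun x => g (f x)) ((fderiv ℝ g (f p)).comp (fderiv ℝ f p)) p :=
      h2.comp p h1
    have h4 : (fun x => g (f x)) = fun x => x := funext h
    rw [h4] at h3
    have h5 := h3.unique (hasFDerivAt_id p)
    have h6 : ∀ u, (fderiv ℝ g (f p)) (fderiv ℝ f p u) = u := fun u => by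
      have := congrArg (fun L : R4 →L[ℝ] R4 => L u) h5
      simpa using this
    rw [← h6 v, ← h6 w, hvw]
  · rw [← h p, ← h q, e]

/-- `1` for `a ≤ 3/10`, `0` for `7/10 ≤ a` -/
noncomputable def kf (a : ℝ) : ℝ := step ((7 / 10 - a) * (5 / 2))

/-- `1` at the level `1/2 - ζ`, `0` at the level `1/2` -/
noncomputable def kg (ζ σ : ℝ) : ℝ := step (2 * ((1 / 2 - σ) / ζ) - 1 / 2)

/-- the bump in the direction `w` -/
noncomputable def kh (a : ℝ) : ℝ := step (20 * (a - 1 / 4)) * step (20 * (3 / 4 - a))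

/-- the diffeomorphism -/
noncomputable def kap (ζ : ℝ) (p : R4) : R4 :=
  (p.1 - ζ * kf p.2.1, p.2.1 + kg ζ (p.1 - ζ * kf p.2.1), p.2.2 + (kh p.2.1 : ℂ))

/-- the inverse diffeomorphism -/
noncomputable def kapi (ζ : ℝ) (p : R4) : R4 :=
  (p.1 + ζ * kf (p.2.1 - kg ζ p.1), p.2.1 - kg ζ p.1, p.2.2 - (kh (p.2.1 - kg ζ p.1) : ℂ))

theorem contDiff_kf : ContDiff ℝ ∞ kf := contDiff_step.comp (by fun_prop)

theorem contDiff_kg (ζ : ℝ) : ContDiff ℝ ∞ (kg ζ) := contDiff_step.comp (by fun_prop)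

theorem contDiff_kh : ContDiff ℝ ∞ kh :=
  (contDiff_step.comp (by fun_prop)).mul (contDiff_step.comp (by fun_prop))

theorem kapi_kap (ζ : ℝ) (p : R4) : kapi ζ (kap ζ p) = p := by
  obtain ⟨s, a, w⟩ := p
  unfold kapi kap
  simp only [add_sub_cancel_right]
  refine Prod.ext ?_ (Prod.ext ?_ ?_)
  · simp
  · simp
  · simp

theorem contDiff_kap (ζ : ℝ) : ContDiff ℝ ∞ (kap ζ) := by
  have h1 : ContDiff ℝ ∞ (fun p : R4 => kf p.2.1) :=
    contDiff_kf.comp (contDiff_fst.comp contDiff_snd)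
  have h2 : ContDiff ℝ ∞ (fun p : R4 => p.1 - ζ * kf p.2.1) :=
    contDiff_fst.sub (contDiff_const.mul h1)
  have h3 : ContDiff ℝ ∞ (fun p : R4 => kg ζ (p.1 - ζ * kf p.2.1)) := (contDiff_kg ζ).comp h2
  have h4 : ContDiff ℝ ∞ (fun p : R4 => ((kh p.2.1 : ℝ) : ℂ)) :=
    Complex.ofRealCLM.contDiff.comp (contDiff_kh.comp (contDiff_fst.comp contDiff_snd))
  exact h2.prodMk (((contDiff_fst.comp contDiff_snd).add h3).prodMk
    ((contDiff_snd.comp contDiff_snd).add h4))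

theorem contDiff_kapi (ζ : ℝ) : ContDiff ℝ ∞ (kapi ζ) := by
  have h1 : ContDiff ℝ ∞ (fun p : R4 => p.2.1 - kg ζ p.1) :=
    (contDiff_fst.comp contDiff_snd).sub ((contDiff_kg ζ).comp contDiff_fst)
  have h2 : ContDiff ℝ ∞ (fun p : R4 => kf (p.2.1 - kg ζ p.1)) := contDiff_kf.comp h1
  have h4 : ContDiff ℝ ∞ (fun p : R4 => ((kh (p.2.1 - kg ζ p.1) : ℝ) : ℂ)) :=
    Complex.ofRealCLM.contDiff.comp (contDiff_kh.comp h1)
  exact (contDiff_fst.add (contDiff_const.mul h2)).prodMk (h1.prodMk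
    ((contDiff_snd.comp contDiff_snd).sub h4))

theorem kap_embOn (ζ : ℝ) (L : Set R4) : EmbOn I4 (kap ζ) L :=
  embOn_of_left (contDiff_kap ζ) (contDiff_kapi ζ) (kapi_kap ζ) L

theorem kf_one {a : ℝ} (h : a ≤ 3 / 10) : kf a = 1 := step_of_one_le (by linarith)

theorem kf_zero {a : ℝ} (h : 7 / 10 ≤ a) : kf a = 0 := step_of_nonpos (by linarith)

theorem kf_mem (a : ℝ) : 0 ≤ kf a ∧ kf a ≤ 1 := step_mem _

theorem kg_mem (ζ σ : ℝ) : 0 ≤ kg ζ σ ∧ kg ζ σ ≤ 1 := step_mem _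

theorem kh_zero {a : ℝ} (h : a ≤ 1 / 4 ∨ 3 / 4 ≤ a) : kh a = 0 := by
  unfold kh
  rcases h with h | h
  · rw [step_of_nonpos (by linarith : 20 * (a - 1 / 4) ≤ 0), zero_mul]
  · rw [step_of_nonpos (by linarith : 20 * (3 / 4 - a) ≤ 0), mul_zero]

theorem kh_one {a : ℝ} (h : 3 / 10 ≤ a) (h' : a ≤ 7 / 10) : kh a = 1 := by
  unfold kh
  rw [step_of_one_le (by linarith : 1 ≤ 20 * (a - 1 / 4)),
    step_of_one_le (by linarith : 1 ≤ 20 * (3 / 4 - a)), mul_one]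

theorem kh_mem (a : ℝ) : 0 ≤ kh a ∧ kh a ≤ 1 := by
  have h1 := step_mem (20 * (a - 1 / 4))
  have h2 := step_mem (20 * (3 / 4 - a))
  exact ⟨mul_nonneg h1.1 h2.1, mul_le_one₀ h1.2 h2.1 h2.2⟩

/-- the level function at levels close to `1/2` -/
theorem kg_zero {ζ : ℝ} (hζ : ζ ≠ 0) {s : ℝ} (h : |s - 1 / 2| ≤ |ζ| / 4) : kg ζ s = 0 := by
  apply step_of_nonpos
  have h1 : |(1 / 2 - s) / ζ| ≤ 1 / 4 := by
    rw [abs_div, div_le_iff₀ (abs_pos.2 hζ), abs_sub_comm]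
    linarith
  have := (abs_le.1 h1).2
  linarith

/-- the level function at levels close to `1/2 - ζ` -/
theorem kg_one {ζ : ℝ} (hζ : ζ ≠ 0) {s : ℝ} (h : |s - (1 / 2 - ζ)| ≤ |ζ| / 4) : kg ζ s = 1 := by
  apply step_of_one_le
  have e : (1 / 2 - s) / ζ = 1 - (s - (1 / 2 - ζ)) / ζ := by
    field_simp
    ring
  have h1 : |(s - (1 / 2 - ζ)) / ζ| ≤ 1 / 4 := by
    rw [abs_div, div_le_iff₀ (abs_pos.2 hζ)]
    linarith
  have := (abs_le.1 h1).2
  rw [e]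
  linarith

/-- near the first ball -/
theorem kap_near0 {ζ : ℝ} (hζ : ζ ≠ 0) {p : R4} (h : |p.1 - 1 / 2| ≤ |ζ| / 4)
    (h' : p.2.1 ≤ 1 / 4) : kap ζ p = (p.1 - ζ, p.2.1 + 1, p.2.2) := by
  have h1 : kf p.2.1 = 1 := kf_one (by linarith)
  have h2 : kg ζ (p.1 - ζ * 1) = 1 := kg_one hζ (by
    have : p.1 - ζ * 1 - (1 / 2 - ζ) = p.1 - 1 / 2 := by ring
    rw [this]
    exact h)
  unfold kap
  rw [h1, h2, kh_zero (Or.inl h')]
  simp

/-- near the second ball -/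
theorem kap_near1 {ζ : ℝ} (hζ : ζ ≠ 0) {p : R4} (h : |p.1 - 1 / 2| ≤ |ζ| / 4)
    (h' : 3 / 4 ≤ p.2.1) : kap ζ p = p := by
  have h1 : kf p.2.1 = 0 := kf_zero (by linarith)
  have h2 : kg ζ (p.1 - ζ * 0) = 0 := kg_zero hζ (by
    have : p.1 - ζ * 0 - 1 / 2 = p.1 - 1 / 2 := by ring
    rw [this]
    exact h)
  unfold kap
  rw [h1, h2, kh_zero (Or.inr h')]
  simp

theorem flat_coord {c : ℝ} {p : R4} (hp : p ∈ flat c) :
    p.1 = 1 / 2 ∧ (p.2.1 - c) ^ 2 + p.2.2.re ^ 2 + p.2.2.im ^ 2 ≤ 1 / 25 ∧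
      c - 1 / 5 ≤ p.2.1 ∧ p.2.1 ≤ c + 1 / 5 := by
  obtain ⟨h1, h2⟩ := hp
  have h3 : (p.2.1 - c) ^ 2 + p.2.2.re ^ 2 + p.2.2.im ^ 2 ≤ 1 / 25 := h2
  refine ⟨h1, h3, ?_, ?_⟩ <;> nlinarith [sq_nonneg p.2.2.re, sq_nonneg p.2.2.im]

/-- the images of the points of the spine with the balls filled in -/
theorem kap_FB {ζ : ℝ} (hζ : ζ ≠ 0) {p : R4} (hp : p ∈ FB) :
    |(kap ζ p).1 - 1 / 2| ≤ |ζ| ∧ rsq 1 (kap ζ p) < 9 ∧
      (rsq 1 (kap ζ p) = 0 → p = (1 / 2, ((0 : ℝ), (0 : ℂ))) ∨ p = (1 / 2, ((1 : ℝ), (0 : ℂ)))) := by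
  have h0 : |(1 / 2 : ℝ) - 1 / 2| ≤ |ζ| / 4 := by
    rw [sub_self, abs_zero]
    positivity
  have hz : ∀ p : R4, rsq 1 p = 0 → p.2.1 = 1 ∧ p.2.2 = 0 := by
    intro p hp
    have h : (p.2.1 - 1) ^ 2 + p.2.2.re ^ 2 + p.2.2.im ^ 2 = 0 := hp
    have a1 := sq_nonneg (p.2.1 - 1)
    have a2 := sq_nonneg p.2.2.re
    have a3 := sq_nonneg p.2.2.im
    refine ⟨?_, Complex.ext ?_ ?_⟩
    · have : (p.2.1 - 1) ^ 2 = 0 := by linarith
      have := pow_eq_zero_iff (two_ne_zero) |>.1 this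
      linarith
    · exact pow_eq_zero_iff (two_ne_zero) |>.1 (by linarith : p.2.2.re ^ 2 = 0)
    · exact pow_eq_zero_iff (two_ne_zero) |>.1 (by linarith : p.2.2.im ^ 2 = 0)
  rcases hp with (hp | hp) | hp
  · obtain ⟨h1, h2, h3, h4⟩ := flat_coord hp
    have e := kap_near0 hζ (p := p) (by rw [h1]; exact h0) (by linarith)
    rw [e]
    refine ⟨?_, ?_, fun h => Or.inl ?_⟩
    · rw [h1]
      have : (1 / 2 : ℝ) - ζ - 1 / 2 = -ζ := by ring
      simp only [this, abs_neg, le_refl]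
    · show (p.2.1 + 1 - 1) ^ 2 + p.2.2.re ^ 2 + p.2.2.im ^ 2 < 9
      have : p.2.1 + 1 - 1 = p.2.1 - 0 := by ring
      rw [this]
      linarith
    · obtain ⟨a, b⟩ := hz _ h
      simp only at a b
      exact Prod.ext h1 (Prod.ext (by simp only; linarith) b)
  · obtain ⟨h1, h2, h3, h4⟩ := flat_coord hp
    have e := kap_near1 hζ (p := p) (by rw [h1]; exact h0) (by linarith)
    rw [e]
    refine ⟨?_, ?_, fun h => Or.inr ?_⟩
    · rw [h1, sub_self, abs_zero]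
      positivity
    · show (p.2.1 - 1) ^ 2 + p.2.2.re ^ 2 + p.2.2.im ^ 2 < 9
      linarith
    · obtain ⟨a, b⟩ := hz _ h
      exact Prod.ext h1 (Prod.ext a b)
  · obtain ⟨h1, h2, h3, h4⟩ := hp
    obtain ⟨f1, f2⟩ := kf_mem p.2.1
    obtain ⟨g1, g2⟩ := kg_mem ζ (p.1 - ζ * kf p.2.1)
    obtain ⟨k1, k2⟩ := kh_mem p.2.1
    have e1 : (kap ζ p).1 = 1 / 2 - ζ * kf p.2.1 := by
      show p.1 - ζ * kf p.2.1 = _
      rw [h1]
    have e2 : (kap ζ p).2.1 = p.2.1 + kg ζ (p.1 - ζ * kf p.2.1) := rfl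
    have e3 : (kap ζ p).2.2 = (kh p.2.1 : ℂ) := by
      show p.2.2 + (kh p.2.1 : ℂ) = _
      rw [h4, zero_add]
    have e4 : rsq 1 (kap ζ p) = (p.2.1 + kg ζ (p.1 - ζ * kf p.2.1) - 1) ^ 2 + kh p.2.1 ^ 2 := by
      show ((kap ζ p).2.1 - 1) ^ 2 + (kap ζ p).2.2.re ^ 2 + (kap ζ p).2.2.im ^ 2 = _
      rw [e2, e3, Complex.ofReal_re, Complex.ofReal_im]
      ring
    refine ⟨?_, ?_, fun h => ?_⟩
    · rw [e1]
      have : (1 / 2 : ℝ) - ζ * kf p.2.1 - 1 / 2 = -(ζ * kf p.2.1) := by ring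
      rw [this, abs_neg, abs_mul, abs_of_nonneg f1]
      have := abs_nonneg ζ
      nlinarith
    · rw [e4]
      nlinarith
    · exfalso
      rw [e4] at h
      have a1 := sq_nonneg (p.2.1 + kg ζ (p.1 - ζ * kf p.2.1) - 1)
      have a2 := sq_nonneg (kh p.2.1)
      have h5 : p.2.1 + kg ζ (p.1 - ζ * kf p.2.1) - 1 = 0 :=
        pow_eq_zero_iff (two_ne_zero) |>.1 (by linarith)
      have h6 : kh p.2.1 = 0 := pow_eq_zero_iff (two_ne_zero) |>.1 (by linarith)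
      rcases lt_or_ge p.2.1 (3 / 10) with h7 | h7
      · have h8 : kg ζ (p.1 - ζ * kf p.2.1) = 1 := by
          rw [kf_one h7.le, h1, mul_one]
          apply kg_one hζ
          rw [sub_self, abs_zero]
          positivity
        rw [h8] at h5
        linarith
      · rcases le_or_gt p.2.1 (7 / 10) with h8 | h8
        · rw [kh_one h7 h8] at h6
          norm_num at h6
        · have h9 : kg ζ (p.1 - ζ * kf p.2.1) = 0 := by
            rw [kf_zero h8.le, h1, mul_zero, sub_zero]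
            exact kg_zero hζ h0
          rw [h9] at h5
          linarith

end Pool.Agent.Helper27.R
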