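import Pool.Agent.Helper18.BI.R.StR
import Pool.Agent.Helper18.BI.H.EndR4
import Pool.Agent.Helper27.BI.H.Cls

/-!
# Project BI, stage 4 (R): modules MULT and INV
-/

set_option autoImplicit false

open scoped Manifold ContDiff Topology ComplexConjugate
open Set Filter Pool.Agent.Helper65.Barb Pool.Agent.Helper18.BI
open Pool.Agent.Helper70.BI (I4 NearEq)
open Pool.Agent.Helper27.H
open Pool.Agent.Helper18.BI.H (cls_imm_inj)
open Pool.Agent.Helper18.BI.R

namespace Pool.Agent.Helper27.R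

section
variable {D : ArcD} {c c' : ℝ → ℝ → R4}

/-- a loop as a constant homotopy -/
theorem loop_htpy (hc : LoopOK D c) : D.Htpy (fun z => c z.2.1 z.2.2) where
  smooth := hc.smooth.comp (g := fun z : ℝ × ℝ => c z.1 z.2)
    (f := fun z : ℝ × ℝ × ℝ => (z.2.1, z.2.2)) (by fun_prop)
  froz _ _ q hq s hs := hc.froz q hq s hs
  inU _ _ q hq s hs := hc.inU q hq s hs
  start _ _ s := hc.start s
  stop _ _ s := hc.stop s

theorem cat_le (hc' : LoopOK D c') {q : ℝ} (h : q ≤ 1 / 2) (s : ℝ) :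
    cat D c c' q s = c (step (2 * q)) s := by
  unfold cat
  rw [step_of_nonpos (by linarith : 2 * q - 1 ≤ 0), hc'.start]
  abel

theorem cat_ge (hc : LoopOK D c) {q : ℝ} (h : 1 / 2 ≤ q) (s : ℝ) :
    cat D c c' q s = c' (step (2 * q - 1)) s := by
  unfold cat
  rw [step_of_one_le (by linarith : 1 ≤ 2 * q), hc.stop]
  abel

theorem loopOK_cat (hc : LoopOK D c) (hc' : LoopOK D c') : LoopOK D (cat D c c') where
  smooth := by
    have h1 : ContDiff ℝ ∞ (fun z : ℝ × ℝ => c (step (2 * z.1)) z.2) :=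
      hc.smooth.comp (g := fun z : ℝ × ℝ => c z.1 z.2) (f := fun z : ℝ × ℝ =>
        (step (2 * z.1), z.2)) ((contDiff_step.comp (by fun_prop)).prodMk contDiff_snd)
    have h2 : ContDiff ℝ ∞ (fun z : ℝ × ℝ => c' (step (2 * z.1 - 1)) z.2) :=
      hc'.smooth.comp (g := fun z : ℝ × ℝ => c' z.1 z.2) (f := fun z : ℝ × ℝ =>
        (step (2 * z.1 - 1), z.2)) ((contDiff_step.comp (by fun_prop)).prodMk contDiff_snd)
    exact (h1.add h2).sub (D.smooth.comp contDiff_snd)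
  froz q hq s hs := by
    unfold cat
    rw [hc.froz _ (step_mem _) s hs, hc'.froz _ (step_mem _) s hs]
    abel
  inU q hq s hs := by
    rcases le_total q (1 / 2) with h | h
    · rw [cat_le hc' h]
      exact hc.inU _ (step_mem _) s hs
    · rw [cat_ge hc h]
      exact hc'.inU _ (step_mem _) s hs
  start s := by
    rw [cat_le hc' (by norm_num), mul_zero, step_of_nonpos le_rfl, hc.start]
  stop s := by
    rw [cat_ge hc (by norm_num), step_of_one_le (by norm_num), hc'.stop]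

theorem loopOK_rev (hc : LoopOK D c) : LoopOK D (fun q s => c (1 - q) s) where
  smooth := hc.smooth.comp (g := fun z : ℝ × ℝ => c z.1 z.2) (f := fun z : ℝ × ℝ =>
    (1 - z.1, z.2)) (by fun_prop)
  froz q hq s hs := hc.froz (1 - q) ⟨by linarith [hq.2], by linarith [hq.1]⟩ s hs
  inU q hq s hs := hc.inU (1 - q) ⟨by linarith [hq.2], by linarith [hq.1]⟩ s hs
  start s := by simp only [sub_zero]; exact hc.stop s
  stop s := by simp only [sub_self]; exact hc.start s

end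

section
variable (hCh : StCH4) (hFr : StFRAME) (hTh : StTHK) (hPhi : StPhi)

include hTh in
/-- the canonical thick family of a loop of embedded arcs -/
theorem loop_fam {D : ArcD} {c : ℝ → ℝ → R4} (hc : LoopOK D c)
    (he : ∀ q ∈ Icc (0 : ℝ) 1, D.Imm (fun z => c z.2.1 z.2.2) 0 q ∧
      D.Inj (fun z => c z.2.1 z.2.2) 0 q) :
    Fam2 Q2 D.L D.V D.U (fun a => thk D.J D.c (c a.2)) ∧
      (∀ q, ∀ s ∈ Icc D.s₀ D.s₁, thk D.J D.c (c q) (s, 0) = c q s) ∧
      thk D.J D.c (c 0) = D.J ∧ thk D.J D.c (c 1) = D.J := by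
  obtain ⟨h1, h2, h3⟩ := can_fam hTh D (loop_htpy hc) (u := 0) (u' := 0) le_rfl le_rfl
    zero_le_one (fun v hv => by
      rw [Icc_self] at hv
      rw [hv]
      exact he)
  exact ⟨h1, fun q s hs => h2 0 q s hs, (h3 0 (by simp)).1, (h3 0 (by simp)).2⟩

include hCh hFr hTh hPhi in
/-- canonical representatives of the class of a loop -/
theorem loop_can {D : ArcD} {c : ℝ → ℝ → R4} {χ : R4 → R4} (hc : LoopOK D c) (h : D.Cls c χ) :
    Fam2 Q2 D.L D.V D.U (fun a => thk D.J D.c (c a.2)) ∧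
      (∀ q, ∀ s ∈ Icc D.s₀ D.s₁, thk D.J D.c (c q) (s, 0) = c q s) ∧
      thk D.J D.c (c 0) = D.J ∧ thk D.J D.c (c 1) = D.J ∧
      ∃ Θ, LPush D.U D.L (fun q => thk D.J D.c (c q)) Θ ∧ LIso D.U D.L D.J D.J Θ Θ ∧
        D.Phi Θ χ := by
  have he := cls_imm_inj D (fun z => c z.2.1 z.2.2) 0 χ (loop_htpy hc).smooth h
  obtain ⟨h1, h2, h3, h4⟩ := loop_fam hTh hc he
  obtain ⟨Θ, χ₀, e1, e2, e3⟩ := can_exists hCh hTh hPhi D (loop_htpy hc) (u := 0) (by simp) he
  have c0 := can_cls hTh D (loop_htpy hc) (u := 0) (by simp) he e1 e3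
  exact ⟨h1, h2, h3, h4, Θ, e1, e2,
    (hPhi D).2.2.2.2.2.1 Θ χ₀ χ e3 (cls_unique hFr hPhi D c0 h)⟩

include hCh hFr hTh hPhi in
theorem m_MULT : StMULT := by
  intro D c c' χ χ' hc hc' h h'
  obtain ⟨f1, f2, f3, f4, Θ, g1, g2, g3⟩ := loop_can hCh hFr hTh hPhi hc h
  obtain ⟨f1', f2', f3', f4', Θ', g1', g2', g3'⟩ := loop_can hCh hFr hTh hPhi hc' h'
  have he := cls_imm_inj D (fun z => c z.2.1 z.2.2) 0 χ (loop_htpy hc).smooth h
  have he' := cls_imm_inj D (fun z => c' z.2.1 z.2.2) 0 χ' (loop_htpy hc').smooth h'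
  have hcc := loopOK_cat hc hc'
  -- the arcs of the concatenation
  have ele : ∀ q : ℝ, q ≤ 1 / 2 → cat D c c' q = c (step (2 * q)) := fun q hq =>
    funext fun s => cat_le hc' hq s
  have ege : ∀ q : ℝ, 1 / 2 ≤ q → cat D c c' q = c' (step (2 * q - 1)) := fun q hq =>
    funext fun s => cat_ge hc hq s
  have hecc : ∀ q ∈ Icc (0 : ℝ) 1, D.Imm (fun z => cat D c c' z.2.1 z.2.2) 0 q ∧
      D.Inj (fun z => cat D c c' z.2.1 z.2.2) 0 q := by
    intro q hq
    rcases le_total q (1 / 2) with hq' | hq'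
    · have := he (step (2 * q)) (step_mem _)
      have e : ∀ s, cat D c c' q s = c (step (2 * q)) s := fun s => cat_le hc' hq' s
      constructor
      · intro s hs
        have := this.1 s hs
        show deriv (fun s => cat D c c' q s) s ≠ 0
        rw [funext e]
        exact this
      · have := this.2
        show InjOn (fun s => cat D c c' q s) _
        rw [funext e]
        exact this
    · have := he' (step (2 * q - 1)) (step_mem _)
      have e : ∀ s, cat D c c' q s = c' (step (2 * q - 1)) s := fun s => cat_ge hc hq' s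
      constructor
      · intro s hs
        have := this.1 s hs
        show deriv (fun s => cat D c c' q s) s ≠ 0
        rw [funext e]
        exact this
      · have := this.2
        show InjOn (fun s => cat D c c' q s) _
        rw [funext e]
        exact this
  obtain ⟨k1, k2, k3, k4⟩ := loop_fam hTh hcc hecc
  have m0 : ((0 : ℝ), (0 : ℝ)) ∈ Q2 := by simp [Q2]
  have mh : ((0 : ℝ), (1 / 2 : ℝ)) ∈ Q2 := by
    refine ⟨by simp, ?_, ?_⟩ <;> simp only <;> norm_num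
  have m1 : ((0 : ℝ), (1 : ℝ)) ∈ Q2 := by simp [Q2]
  obtain ⟨Θ1, p1⟩ := exists_lpush hCh D.isCompact_L D.isOpen_V D.openU isCompact_Q2 convex_Q2 k1 m0 mh
  obtain ⟨Θ2, p2⟩ := exists_lpush hCh D.isCompact_L D.isOpen_V D.openU isCompact_Q2 convex_Q2 k1 mh m1
  obtain ⟨Θ3, p3⟩ := exists_lpush hCh D.isCompact_L D.isOpen_V D.openU isCompact_Q2 convex_Q2 k1 m0 m1
  have tri := triangle4 hCh D.isCompact_L D.isOpen_V D.openU isCompact_Q2 convex_Q2 k1 m0 mh m1
    p1 p2 p3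
  -- the first half is a reparametrization of the first loop
  have q1 : LPush D.U D.L (fun q => thk D.J D.c (c (step q))) Θ1 := by
    refine p1.congr ⟨univ, isOpen_univ, subset_univ _, fun q hq p _ => ?_⟩
    have e : (((0 : ℝ), (0 : ℝ)) + q • (((0 : ℝ), (1 / 2 : ℝ)) - ((0 : ℝ), (0 : ℝ)))).2 = q / 2 := by
      simp; ring
    simp only [e]
    rw [ele (q / 2) (by linarith [hq.2])]
    have e' : 2 * (q / 2) = q := by ring
    rw [e']
  have q2 : LPush D.U D.L (fun q => thk D.J D.c (c' (step q))) Θ2 := by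
    refine p2.congr ⟨univ, isOpen_univ, subset_univ _, fun q hq p _ => ?_⟩
    have e : (((0 : ℝ), (1 / 2 : ℝ)) + q • (((0 : ℝ), (1 : ℝ)) - ((0 : ℝ), (1 / 2 : ℝ)))).2 =
        1 / 2 + q / 2 := by
      simp; ring
    simp only [e]
    rw [ege (1 / 2 + q / 2) (by linarith [hq.1])]
    have e' : 2 * (1 / 2 + q / 2) - 1 = q := by ring
    rw [e']
  have q3 : LPush D.U D.L (fun q => thk D.J D.c (cat D c c' q)) Θ3 := by
    refine p3.congr ⟨univ, isOpen_univ, subset_univ _, fun q hq p _ => ?_⟩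
    have e : (((0 : ℝ), (0 : ℝ)) + q • (((0 : ℝ), (1 : ℝ)) - ((0 : ℝ), (0 : ℝ)))).2 = q := by
      simp
    simp only [e]
  have st0 : step 0 = 0 := step_of_nonpos le_rfl
  have st1 : step 1 = 1 := step_of_one_le le_rfl
  have r1 : LIso D.U D.L D.J D.J Θ Θ1 := by
    have := push_reparam hCh D.isCompact_L D.isOpen_V D.openU (J := fun q => thk D.J D.c (c q))
      f1 contDiff_step (fun q _ => step_mem q) st0 st1 g1 q1
    rwa [f3, f4] at this
  have r2 : LIso D.U D.L D.J D.J Θ' Θ2 := by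
    have := push_reparam hCh D.isCompact_L D.isOpen_V D.openU (J := fun q => thk D.J D.c (c' q))
      f1' contDiff_step (fun q _ => step_mem q) st0 st1 g1' q2
    rwa [f3', f4'] at this
  have tri' : LIso D.U D.L D.J D.J (fun x => Θ2 (Θ1 x)) Θ3 := by
    have := tri
    simp only [k3, k4] at this
    exact this
  have all : LIso D.U D.L D.J D.J (fun x => Θ' (Θ x)) Θ3 := (r2.comp r1).trans tri'
  have ph : D.Phi (fun x => Θ' (Θ x)) (fun x => χ' (χ x)) :=
    (hPhi D).2.2.2.1 Θ' Θ χ' χ g2' g2 g3' g3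
  have ph3 : D.Phi Θ3 (fun x => χ' (χ x)) := (hPhi D).1 _ _ _ all ph
  refine ⟨fun q => thk D.J D.c (cat D c c' q), fun q _ s hs => k2 q s hs, D.V, D.isOpen_V,
    D.mem_V₀, D.mem_V₁, k1, fun p _ => congrFun k3 p, ?_, ?_, Θ3, q3, ph3⟩
  · simp only [k3]
    exact nearEq_refl _ _
  · simp only [k4]
    exact nearEq_refl _ _

include hCh hFr hTh hPhi in
theorem m_INV (hCI : StCI) : StINV := by
  intro D c χ χ' hc h ha hb
  obtain ⟨f1, f2, f3, f4, Θ, g1, g2, g3⟩ := loop_can hCh hFr hTh hPhi hc h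
  obtain ⟨Θ', i1, i2, i3⟩ := g2.exists_inv
  have p' := g1.reverse i2
  obtain ⟨χ'', hχ''⟩ := (hPhi D).2.1 Θ' Θ' i1
  -- `χ ∘ χ''` is the class of the identity
  obtain ⟨-, cs, cself, ct, cc, cinv, -⟩ := hCI _ _ 𝓘(ℝ, R4) R4
  have e1 : D.Phi (fun x => Θ (Θ' x)) (fun x => χ (χ'' x)) :=
    (hPhi D).2.2.2.1 Θ Θ' χ χ'' g2 i1 g3 hχ''
  have e2 : (fun x => Θ (Θ' x)) = fun x => x := funext i2
  rw [e2] at e1
  have e3 : CIsot I4 (fun x => χ (χ'' x)) (fun x => x) :=
    (hPhi D).2.2.1 (fun x => x) _ _ (LIso.one D.J) e1 (hPhi D).2.2.2.2.1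
  have χχ : CIsot I4 χ χ := (hPhi D).2.2.2.2.2.2 Θ χ g3
  have χ'χ' : CIsot I4 χ' χ' := cinv χ χ χ' χ' χχ ha ha
  have e4 : CIsot I4 (fun x => χ' (χ (χ'' x))) (fun x => χ' x) :=
    cc χ' χ' (fun x => χ (χ'' x)) (fun x => x) χ'χ' e3
  have e5 : (fun x => χ' (χ (χ'' x))) = χ'' := funext fun x => hb (χ'' x)
  rw [e5] at e4
  have ph : D.Phi Θ' χ' := (hPhi D).2.2.2.2.2.1 Θ' χ'' χ' hχ'' e4
  have hfam : Fam2 Q2 D.L D.V D.U (fun a => thk D.J D.c (c (1 - a.2))) := by
    refine f1.comp (θ := fun a => (a.1, 1 - a.2)) (by fun_prop) ?_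
    rintro ⟨x, q⟩ ⟨hx, hq1, hq2⟩
    simp only at hq1 hq2
    exact ⟨hx, by simp only; linarith, by simp only; linarith⟩
  refine ⟨fun q => thk D.J D.c (c (1 - q)), fun q _ s hs => f2 (1 - q) s hs, D.V, D.isOpen_V,
    D.mem_V₀, D.mem_V₁, hfam, fun p _ => ?_, ?_, ?_, Θ', p', ph⟩
  · simp only [sub_zero, f4]
  · simp only [sub_zero, f4]
    exact nearEq_refl _ _
  · simp only [sub_self, f3]
    exact nearEq_refl _ _

end

end Pool.Agent.Helper27.R
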