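import Pool.Agent.Helper27.BI.R.Kap
import Pool.Agent.Helper27.BI.H.ArcH
import Pool.Agent.Helper27.BI.H.Cls
import Pool.Agent.Helper18.BI.H.StEnd

/-!
# Project BI, stage 4 (R), module PAR: the class of a parallel copy of the fixed cuff
-/

set_option autoImplicit false

open scoped Manifold ContDiff Topology ComplexConjugate
open Set Filter Pool.Agent.Helper65.Barb Pool.Agent.Helper18.BI
open Pool.Agent.Helper70.BI (I4 LD IsW MW ld_iff embOn_iff ld_comp embOn_comp)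
open Pool.Agent.Helper27.H
open Pool.Agent.Helper18.BI.H (StHMain)

namespace Pool.Agent.Helper27.R

open Rad (rad fr fr_prf fr_bounds rad_embOn rad_id rsq_rad)

theorem continuous_rsq (c : ℝ) : Continuous (rsq c) := by
  unfold rsq nsq
  fun_prop

/-- the box around the sphere `sph 1` -/
def bx (δ : ℝ) : Set R4 := {p | |p.1 - 1 / 2| ≤ δ ∧ |rsq 1 p - 1 / 25| ≤ 12 * δ}

theorem bx_mono {δ δ' : ℝ} (h : δ ≤ δ') : bx δ ⊆ bx δ' := fun p hp =>
  ⟨hp.1.trans h, hp.2.trans (by linarith)⟩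

theorem isCompact_bx (δ : ℝ) (h0 : 0 < δ) (h1 : δ ≤ 1 / 100) : IsCompact (bx δ) := by
  have hcl : IsClosed (bx δ) :=
    (isClosed_le (f := fun p : R4 => |p.1 - 1 / 2|) (by fun_prop) continuous_const).inter
      (isClosed_le (f := fun p : R4 => |rsq 1 p - 1 / 25|)
        ((continuous_rsq 1).sub continuous_const).abs continuous_const)
  refine (isCompact_closedBall ((1 / 2, ((1 : ℝ), (0 : ℂ))) : R4) 1).of_isClosed_subset hcl ?_
  rintro ⟨s, a, w⟩ ⟨h2, h3⟩
  have h4 : (a - 1) ^ 2 + w.re ^ 2 + w.im ^ 2 ≤ 1 := by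
    have h5 : rsq 1 (s, a, w) = (a - 1) ^ 2 + w.re ^ 2 + w.im ^ 2 := rfl
    have := (abs_le.1 h3).2
    rw [h5] at this
    linarith
  have h2' : |s - 1 / 2| ≤ 1 := h2.trans (by linarith)
  rw [mem_closedBall_iff_norm]
  have e : ((s, a, w) : R4) - (1 / 2, ((1 : ℝ), (0 : ℂ))) = (s - 1 / 2, a - 1, w) := by
    refine Prod.ext rfl (Prod.ext rfl ?_)
    show w - 0 = w
    rw [sub_zero]
  rw [e]
  refine norm_prod_le_iff.2 ⟨h2', norm_prod_le_iff.2 ⟨?_, ?_⟩⟩
  · show |a - 1| ≤ 1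
    apply abs_le_one_iff_mul_self_le_one.2
    nlinarith [sq_nonneg w.re, sq_nonneg w.im]
  · show ‖w‖ ≤ 1
    have h6 : ‖w‖ ^ 2 = w.re ^ 2 + w.im ^ 2 := by
      rw [Complex.sq_norm, Complex.normSq_apply]
      ring
    have h7 : ‖w‖ ^ 2 ≤ 1 := by nlinarith [sq_nonneg (a - 1)]
    nlinarith [norm_nonneg w]

theorem exists_bx {O : Set R4} (hO : IsOpen O) (h : sph 1 ⊆ O) :
    ∃ δ ∈ Ioo (0 : ℝ) (1 / 100), bx δ ⊆ O := by
  have hc : IsCompact (bx (1 / 200) \ O) :=
    (isCompact_bx _ (by norm_num) (by norm_num)).diff hO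
  rcases (bx (1 / 200) \ O).eq_empty_or_nonempty with h0 | h0
  · exact ⟨1 / 200, by norm_num, sdiff_eq_empty.1 h0⟩
  have hcont : Continuous (fun p : R4 => max |p.1 - 1 / 2| |rsq 1 p - 1 / 25|) :=
    Continuous.max (by fun_prop) ((continuous_rsq 1).sub continuous_const).abs
  obtain ⟨x, hx, hmin⟩ := hc.exists_isMinOn h0 hcont.continuousOn
  have hpos : 0 < max |x.1 - 1 / 2| |rsq 1 x - 1 / 25| := by
    by_contra hle
    push Not at hle
    have h1 : |x.1 - 1 / 2| ≤ 0 := (le_max_left _ _).trans hle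
    have h2 : |rsq 1 x - 1 / 25| ≤ 0 := (le_max_right _ _).trans hle
    have h3 := abs_nonpos_iff.1 h1
    have h4 := abs_nonpos_iff.1 h2
    exact hx.2 (h ⟨by linarith, by linarith⟩)
  set m := max |x.1 - 1 / 2| |rsq 1 x - 1 / 25| with hm
  refine ⟨min (1 / 200) (m / 24), ⟨lt_min (by norm_num) (by positivity), ?_⟩, fun p hp => ?_⟩
  · exact lt_of_le_of_lt (min_le_left _ _) (by norm_num)
  · by_contra hpO
    have hp' : p ∈ bx (1 / 200) \ O := ⟨bx_mono (min_le_left _ _) hp, hpO⟩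
    have h1 : m ≤ max |p.1 - 1 / 2| |rsq 1 p - 1 / 25| := hmin hp'
    have h2 : min (1 / 200) (m / 24) ≤ m / 24 := min_le_right _ _
    have h3 : max |p.1 - 1 / 2| |rsq 1 p - 1 / 25| ≤ m / 2 := by
      apply max_le
      · exact hp.1.trans (by linarith)
      · exact hp.2.trans (by linarith)
    linarith

theorem isCompact_sph1 : IsCompact (sph 1) := by
  have hcl : IsClosed (sph 1) :=
    (isClosed_eq continuous_fst continuous_const).inter
      (isClosed_eq (continuous_rsq 1) continuous_const)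
  refine (isCompact_bx (1 / 100) (by norm_num) le_rfl).of_isClosed_subset hcl ?_
  rintro p ⟨h1, h2⟩
  refine ⟨?_, ?_⟩
  · rw [h1, sub_self, abs_zero]; norm_num
  · rw [h2, sub_self, abs_zero]; norm_num

/-- the region of the model -/
def regn (w : ℝ) : Set R4 := {p | |p.1 - 1 / 2| < w ∧ rsq 1 p < 9}

theorem isOpen_regn (w : ℝ) : IsOpen (regn w) :=
  (isOpen_lt (f := fun p : R4 => |p.1 - 1 / 2|) (by fun_prop) continuous_const).inter
    (isOpen_lt (continuous_rsq 1) continuous_const)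

theorem rad_mem_bx {δ : ℝ} (hδ : δ ∈ Ioo (0 : ℝ) (1 / 100)) {p : R4} (hp : p ∈ regn δ)
    (h0 : 0 < rsq 1 p) : rad (fr δ) 1 p ∈ bx δ := by
  refine ⟨hp.1.le, ?_⟩
  rw [rsq_rad (fr_prf hδ.1 hδ.2) 1 p h0, abs_le]
  obtain ⟨h1, h2⟩ := fr_bounds hδ.1 hδ.2 h0.le hp.2.le
  constructor <;> linarith

section
variable {F : R4 → R4} {O : Set R4} {δ : ℝ} (hδ : δ ∈ Ioo (0 : ℝ) (1 / 100))
  (hF : EmbOn I4 F O) (hO : bx δ ⊆ O)
include hδ hF hO

theorem frad_emb : EmbOn I4 (fun p => F (rad (fr δ) 1 p)) (regn δ ∩ {p | 0 < rsq 1 p}) := by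
  have h1 : EmbOn I4 (rad (fr δ) 1) (regn δ ∩ {p | 0 < rsq 1 p}) :=
    Pool.Agent.Helper27.BI.EmbOn.mono (rad_embOn (fr_prf hδ.1 hδ.2) 1) inter_subset_right
  have h2 : EmbOn I4 (F ∘ rad (fr δ) 1) (regn δ ∩ {p | 0 < rsq 1 p}) :=
    embOn_comp hF h1 fun p hp => hO (rad_mem_bx hδ hp.1 hp.2)
  exact h2

/-- the arc datum -/
theorem exists_parD : ∃ D : ArcD, D.U = regn δ ∧ D.s₀ = 1 / 2 - δ ∧ D.s₁ = 1 / 2 + δ ∧
    D.J = (fun p => p + ((0, 1, 0) : R4)) ∧ D.e = fun p => F (rad (fr δ) 1 p) := by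
  have h0 := hδ.1
  have hJ : EmbOn I4 (fun p : R4 => p + ((0, 1, 0) : R4)) (seg (1 / 2 - δ) (1 / 2 + δ)) :=
    embOn_of_left (g := fun p => p - ((0, 1, 0) : R4)) (contDiff_id.add contDiff_const)
      (contDiff_id.sub contDiff_const) (fun x => by simp) _
  have hr : ∀ s : ℝ, rsq 1 ((s, 1, 0) : R4) = 0 := by
    intro s
    show ((1 : ℝ) - 1) ^ 2 + (0 : ℂ).re ^ 2 + (0 : ℂ).im ^ 2 = 0
    simp
  refine ⟨{
    U := regn δ
    s₀ := 1 / 2 - δ
    m₀ := 1 / 2 - δ / 2
    m₁ := 1 / 2 + δ / 2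
    s₁ := 1 / 2 + δ
    J := fun p => p + ((0, 1, 0) : R4)
    c := fun s => (s, 1, 0)
    e := fun p => F (rad (fr δ) 1 p)
    openU := isOpen_regn δ
    h₀ := by linarith
    h₁ := by linarith
    h₂ := by linarith
    smooth := by fun_prop
    core := fun s _ => by
      refine Prod.ext ?_ (Prod.ext ?_ ?_)
      · show s + 0 = s
        ring
      · show (0 : ℝ × ℂ).1 + 1 = 1
        simp
      · show (0 : ℝ × ℂ).2 + 0 = 0
        simp
    emb := hJ
    mem := fun s hs => ⟨by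
      show |s - 1 / 2| < δ
      rw [abs_lt]
      constructor <;> linarith [hs.1, hs.2], by rw [hr]; norm_num⟩
    off₀ := fun h => by
      have h1 : |(1 / 2 - δ) - 1 / 2| < δ := h.1
      have e : (1 / 2 - δ) - 1 / 2 = -δ := by ring
      rw [e, abs_neg, abs_of_pos h0] at h1
      exact lt_irrefl _ h1
    off₁ := fun h => by
      have h1 : |(1 / 2 + δ) - 1 / 2| < δ := h.1
      have e : (1 / 2 + δ) - 1 / 2 = δ := by ring
      rw [e, abs_of_pos h0] at h1
      exact lt_irrefl _ h1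
    embe := ?_ }, rfl, rfl, rfl, rfl, rfl⟩
  refine Pool.Agent.Helper27.BI.EmbOn.mono (frad_emb hδ hF hO) ?_
  rintro p ⟨hp, hp'⟩
  refine ⟨hp, ?_⟩
  by_contra hle
  have hle : ¬ 0 < rsq 1 p := hle
  apply hp'
  have h2 : (p.2.1 - 1) ^ 2 + p.2.2.re ^ 2 + p.2.2.im ^ 2 ≤ 0 := not_lt.1 hle
  have a1 := sq_nonneg (p.2.1 - 1)
  have a2 := sq_nonneg p.2.2.re
  have a3 := sq_nonneg p.2.2.im
  have b1 : p.2.1 - 1 = 0 := pow_eq_zero_iff (two_ne_zero) |>.1 (by linarith : (p.2.1 - 1) ^ 2 = 0)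
  have b2 : p.2.2.re = 0 := pow_eq_zero_iff (two_ne_zero) |>.1 (by linarith)
  have b3 : p.2.2.im = 0 := pow_eq_zero_iff (two_ne_zero) |>.1 (by linarith)
  have h3 := abs_lt.1 hp.1
  refine ⟨(p.1, 0), ⟨by linarith [h3.1], by linarith [h3.2], rfl⟩, ?_⟩
  refine Prod.ext ?_ (Prod.ext ?_ (Complex.ext ?_ ?_))
  · show p.1 + 0 = p.1
    ring
  · show (0 : ℝ × ℂ).1 + 1 = p.2.1
    simp
    linarith
  · show ((0 : ℝ × ℂ).2 + 0).re = p.2.2.re
    rw [b2]
    simp
  · show ((0 : ℝ × ℂ).2 + 0).im = p.2.2.im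
    rw [b3]
    simp

theorem par_cls (hCls : StCls) (hCROSS : StCROSS) (hCUSP : StCUSP) (hNORM : StNORM)
    {W φ : R4 → R4} (hW : IsW W) {η : ℝ} (hη : 0 < η) (hη' : η < δ)
    (hφ : Thin I4 (fun p => F (rad (fr δ) 1 (kap η p))) φ) : WR W (fun x => x) φ := by
  obtain ⟨D, dU, d0, d1, dJ, de⟩ := exists_parD hδ hF hO
  have habs : |η| = η := abs_of_pos hη
  have hA : ∀ p ∈ D.A, rsq 1 p = 0 := by
    rintro p ⟨q, hq, rfl⟩
    rw [dJ]
    have h1 : q.2 = 0 := hq.2.2
    have e : (fun p => p + ((0, 1, 0) : R4)) q = (q.1, 1, 0) := by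
      refine Prod.ext ?_ (Prod.ext ?_ ?_)
      · show q.1 + 0 = q.1
        ring
      · show q.2.1 + 1 = 1
        rw [h1]
        simp
      · show q.2.2 + 0 = 0
        rw [h1]
        simp
    rw [e]
    show ((1 : ℝ) - 1) ^ 2 + (0 : ℂ).re ^ 2 + (0 : ℂ).im ^ 2 = 0
    simp
  have hT : D.XG (kap η) := by
    refine ⟨kap_embOn η FB, fun p hp => ?_, fun p hp hA' => ?_, ?_⟩
    · rw [dU]
      obtain ⟨h1, h2, -⟩ := kap_FB hη.ne' hp
      rw [habs] at h1
      exact ⟨h1.trans_lt hη', h2⟩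
    · exact (kap_FB hη.ne' hp).2.2 (hA _ hA')
    · have near : ∀ᶠ s in 𝓝 (1 / 2 : ℝ), |s - 1 / 2| ≤ |η| / 4 := by
        have h1 : ContinuousAt (fun s : ℝ => |s - 1 / 2|) (1 / 2) := by fun_prop
        have h2 : |(1 / 2 : ℝ) - 1 / 2| < |η| / 4 := by
          rw [sub_self, abs_zero, habs]
          positivity
        filter_upwards [h1.eventually (gt_mem_nhds h2)] with s hs
        exact hs.le
      refine ⟨fun s => s - η, fun s => s, (contDiff_id.sub contDiff_const).contDiffAt,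
        contDiff_id.contDiffAt, ?_, ?_, ?_, ?_, ?_, ?_, ?_, ?_⟩
      · rw [deriv_sub_const, deriv_id'']
        norm_num
      · rw [deriv_id'']
        norm_num
      · rw [d0]
        linarith
      · show 1 / 2 - η < 1 / 2
        linarith
      · rw [d1]
        linarith
      · filter_upwards [near] with s hs
        rw [kap_near0 hη.ne' (p := (s, ((0 : ℝ), (0 : ℂ)))) hs (by norm_num), dJ]
        refine Prod.ext ?_ (Prod.ext ?_ ?_)
        · show s - η = s - η + 0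
          ring
        · show (0 : ℝ) + 1 = (0 : ℝ × ℂ).1 + 1
          simp
        · show (0 : ℂ) = (0 : ℝ × ℂ).2 + 0
          simp
      · filter_upwards [near] with s hs
        rw [kap_near1 hη.ne' (p := (s, ((1 : ℝ), (0 : ℂ)))) hs (by norm_num), dJ]
        refine Prod.ext ?_ (Prod.ext ?_ ?_)
        · show s = s + 0
          ring
        · show (1 : ℝ) = (0 : ℝ × ℂ).1 + 1
          simp
        · show (0 : ℂ) = (0 : ℝ × ℂ).2 + 0
          simp
      · -- the determinants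
        have e1 : kap η =ᶠ[𝓝 ((1 / 2, ((0 : ℝ), (0 : ℂ))) : R4)]
            fun p => p + ((-η, 1, 0) : R4) := by
          have c1 : ContinuousAt (fun p : R4 => |p.1 - 1 / 2|) (1 / 2, ((0 : ℝ), (0 : ℂ))) := by
            fun_prop
          have c2 : ContinuousAt (fun p : R4 => p.2.1) (1 / 2, ((0 : ℝ), (0 : ℂ))) := by
            fun_prop
          have h2 : |(1 / 2 : ℝ) - 1 / 2| < |η| / 4 := by
            rw [sub_self, abs_zero, habs]
            positivity
          filter_upwards [c1.eventually (gt_mem_nhds h2),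
            c2.eventually (gt_mem_nhds (by norm_num : ((0 : ℝ)) < 1 / 4))] with p h3 h4
          rw [kap_near0 hη.ne' h3.le h4.le]
          refine Prod.ext ?_ (Prod.ext ?_ ?_)
          · show p.1 - η = p.1 + -η
            ring
          · rfl
          · show p.2.2 = p.2.2 + 0
            simp
        have e2 : fderiv ℝ (kap η) (1 / 2, ((0 : ℝ), (0 : ℂ))) = ContinuousLinearMap.id ℝ R4 := by
          rw [e1.fderiv_eq]
          exact ((hasFDerivAt_id _).add_const _).fderiv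
        have e3 : ∀ q, fderiv ℝ D.J q = ContinuousLinearMap.id ℝ R4 := by
          intro q
          rw [dJ]
          exact ((hasFDerivAt_id _).add_const _).fderiv
        rw [e2, e3]
        have e4 : (ContinuousLinearMap.id ℝ R4).det = 1 := by
          show LinearMap.det (LinearMap.id : R4 →ₗ[ℝ] R4) = 1
          exact LinearMap.det_id
        rw [e4]
        norm_num
  refine cross_class hCls hCROSS hCUSP hNORM (D := D) hW hT ?_
  rw [de]
  exact hφ

end

end Pool.Agent.Helper27.R
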