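import Pool.Agent.Helper34.BI.StD
import Pool.Agent.Helper18.BI.M_A0
import Pool.Agent.Helper18.BI.M_R0
import Pool.Agent.Helper18.BI.M_R2
import Pool.Agent.Helper70.BI.Base

/-!
# Project BI, stage 4 (R): radial maps with a two-sided profile

The proofs for general profile functions follow `Pool/Agent/Helper34/BI/M_RE.lean` (helper34).
-/

set_option autoImplicit false

open scoped Manifold ContDiff Topology ComplexConjugate
open Set Pool.Agent.Helper65.Barb Pool.Agent.Helper18.BI Pool.Agent.Helper27.BI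

namespace Pool.Agent.Helper27.R

namespace Rad

open R2 (rsq_eq rsq_contDiff isOpen_pos line_deriv)

/-- a profile function -/
structure Prf (f : ℝ → ℝ) : Prop where
  smooth : ContDiff ℝ ∞ f
  pos : ∀ q, 0 < deriv f q
  pos0 : ∀ q, 0 < q → 0 < f q

/-- the factor -/
noncomputable def mf (f : ℝ → ℝ) (c : ℝ) (p : R4) : ℝ := √(f (rsq c p) / rsq c p)

/-- the radial map with profile `f` -/
noncomputable def rad (f : ℝ → ℝ) (c : ℝ) (p : R4) : R4 :=
  (p.1, c + mf f c p * (p.2.1 - c), ((mf f c p : ℝ) : ℂ) * p.2.2)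

theorem rad_eq (f : ℝ → ℝ) (c : ℝ) (p : R4) :
    rad f c p = (p.1, c + mf f c p * (p.2.1 - c), ((mf f c p : ℝ) : ℂ) * p.2.2) := rfl

variable {f : ℝ → ℝ}

theorem Prf.mono (hf : Prf f) : StrictMono f := strictMono_of_deriv_pos hf.pos

theorem Prf.hasDeriv (hf : Prf f) (q : ℝ) : HasDerivAt f (deriv f q) q :=
  (hf.smooth.differentiable (by simp) q).hasDerivAt

theorem arg_pos (hf : Prf f) (c : ℝ) (p : R4) (hp : 0 < rsq c p) :
    0 < f (rsq c p) / rsq c p :=
  div_pos (hf.pos0 _ hp) hp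

theorem mf_pos (hf : Prf f) (c : ℝ) (p : R4) (hp : 0 < rsq c p) :
    0 < mf f c p := Real.sqrt_pos.2 (arg_pos hf c p hp)

theorem mf_sq (hf : Prf f) (c : ℝ) (p : R4) (hp : 0 < rsq c p) :
    mf f c p ^ 2 * rsq c p = f (rsq c p) := by
  rw [mf, Real.sq_sqrt (arg_pos hf c p hp).le, div_mul_cancel₀ _ hp.ne']

theorem rsq_rad (hf : Prf f) (c : ℝ) (p : R4) (hp : 0 < rsq c p) :
    rsq c (rad f c p) = f (rsq c p) := by
  rw [← mf_sq hf c p hp, rad_eq, rsq_eq, rsq_eq]
  simp only [Complex.mul_re, Complex.mul_im, Complex.ofReal_re, Complex.ofReal_im]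
  ring

theorem mf_contDiffOn (hf : Prf f) (c : ℝ) :
    ContDiffOn ℝ ∞ (mf f c) {p : R4 | 0 < rsq c p} := by
  have h2 : ContDiffOn ℝ ∞ (fun p : R4 => f (rsq c p) / rsq c p) {p : R4 | 0 < rsq c p} :=
    (hf.smooth.comp (rsq_contDiff c)).contDiffOn.div (rsq_contDiff c).contDiffOn
      (fun p hp => (ne_of_gt hp))
  exact h2.sqrt (fun p hp => (arg_pos hf c p hp).ne')

theorem rad_contDiffOn (hf : Prf f) (c : ℝ) :
    ContDiffOn ℝ ∞ (rad f c) {p : R4 | 0 < rsq c p} := by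
  have hm := mf_contDiffOn hf c
  have h2 : ContDiff ℝ ∞ (fun p : R4 => p.2.1 - c) :=
    (contDiff_fst.comp contDiff_snd).sub contDiff_const
  have h3 : ContDiffOn ℝ ∞ (fun p : R4 => ((mf f c p : ℝ) : ℂ)) {p : R4 | 0 < rsq c p} :=
    Complex.ofRealCLM.contDiff.comp_contDiffOn hm
  exact contDiff_fst.contDiffOn.prodMk ((contDiffOn_const.add (hm.mul h2.contDiffOn)).prodMk
    (h3.mul (contDiff_snd.comp contDiff_snd).contDiffOn))

theorem rad_fderiv (hf : Prf f) (c : ℝ) (p v : R4)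
    (hp : 0 < rsq c p) (hv : fderiv ℝ (rad f c) p v = 0) : v = 0 := by
  have hnhd : {p : R4 | 0 < rsq c p} ∈ 𝓝 p := (isOpen_pos c).mem_nhds hp
  have hd : DifferentiableAt ℝ (rad f c) p :=
    ((rad_contDiffOn hf c).contDiffAt hnhd).differentiableAt (by simp)
  have hdm : DifferentiableAt ℝ (mf f c) p :=
    ((mf_contDiffOn hf c).contDiffAt hnhd).differentiableAt (by simp)
  obtain ⟨s, a, w⟩ := p
  obtain ⟨σ, b, z⟩ := v
  have hline : HasDerivAt (fun t : ℝ => ((s, a, w) : R4) + t • ((σ, b, z) : R4)) (σ, b, z) 0 := by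
    have := ((hasDerivAt_id (0 : ℝ)).smul_const ((σ, b, z) : R4)).const_add ((s, a, w) : R4)
    simpa using this
  have hline0 : ((s, a, w) : R4) + (0 : ℝ) • ((σ, b, z) : R4) = (s, a, w) := by
    rw [zero_smul, add_zero]
  have hc : HasDerivAt (fun t : ℝ => rad f c ((s, a, w) + t • (σ, b, z))) 0 0 := by
    have h2 : HasFDerivAt (rad f c) (fderiv ℝ (rad f c) (s, a, w))
        (((s, a, w) : R4) + (0 : ℝ) • ((σ, b, z) : R4)) := by
      rw [hline0]
      exact hd.hasFDerivAt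
    have h3 := h2.comp_hasDerivAt (0 : ℝ) hline
    rw [hv] at h3
    exact h3
  obtain ⟨μ, hμ⟩ : ∃ μ : ℝ, HasDerivAt (fun t : ℝ => mf f c ((s, a, w) + t • (σ, b, z))) μ 0 := by
    have h2 : HasFDerivAt (mf f c) (fderiv ℝ (mf f c) (s, a, w))
        (((s, a, w) : R4) + (0 : ℝ) • ((σ, b, z) : R4)) := by
      rw [hline0]
      exact hdm.hasFDerivAt
    have h3 := h2.comp_hasDerivAt (0 : ℝ) hline
    exact ⟨_, h3⟩
  have e1 : ∀ t : ℝ, rad f c ((s, a, w) + t • (σ, b, z)) =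
      (s + t * σ, c + mf f c ((s, a, w) + t • (σ, b, z)) * (a - c + t * b),
        ((mf f c ((s, a, w) + t • (σ, b, z)) : ℝ) : ℂ) * (w + t * z)) := by
    intro t
    rw [rad_eq]
    refine Prod.ext ?_ (Prod.ext ?_ ?_)
    · simp
    · simp only [Prod.fst_add, Prod.snd_add, Prod.smul_fst, Prod.smul_snd, smul_eq_mul]
      ring
    · simp
  simp only [e1] at hc
  have hσ : σ = 0 := by
    have h2 := (ContinuousLinearMap.fst ℝ ℝ (ℝ × ℂ)).hasFDerivAt.comp_hasDerivAt (0 : ℝ) hc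
    have h5 := (line_deriv s σ).unique h2
    simpa using h5
  set m : ℝ := mf f c (s, a, w) with hm
  have hm0 : 0 < m := mf_pos hf c _ hp
  have hma : mf f c (((s, a, w) : R4) + (0 : ℝ) • ((σ, b, z) : R4)) = m := by
    rw [hline0]
  have hb : μ * (a - c) + m * b = 0 := by
    have h2 := ((ContinuousLinearMap.fst ℝ ℝ ℂ).comp
      (ContinuousLinearMap.snd ℝ ℝ (ℝ × ℂ))).hasFDerivAt.comp_hasDerivAt (0 : ℝ) hc
    have h3 := (hμ.mul (line_deriv (a - c) b)).const_add c
    have h4 := h3.unique h2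
    rw [hma] at h4
    simpa using h4
  have hre : μ * w.re + m * z.re = 0 := by
    have h2 := (Complex.reCLM.comp ((ContinuousLinearMap.snd ℝ ℝ ℂ).comp
      (ContinuousLinearMap.snd ℝ ℝ (ℝ × ℂ)))).hasFDerivAt.comp_hasDerivAt (0 : ℝ) hc
    have h3 := hμ.mul (line_deriv w.re z.re)
    have e2 : ((Complex.reCLM.comp ((ContinuousLinearMap.snd ℝ ℝ ℂ).comp
        (ContinuousLinearMap.snd ℝ ℝ (ℝ × ℂ)))) ∘ fun t : ℝ =>
        ((s + t * σ, c + mf f c ((s, a, w) + t • (σ, b, z)) * (a - c + t * b),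
        ((mf f c ((s, a, w) + t • (σ, b, z)) : ℝ) : ℂ) * (w + t * z)) : R4)) =
        ((fun t : ℝ => mf f c ((s, a, w) + t • (σ, b, z))) * fun t : ℝ => w.re + t * z.re) := by
      ext t
      simp
    rw [e2] at h2
    have h4 := h3.unique h2
    rw [hma] at h4
    simpa using h4
  have him : μ * w.im + m * z.im = 0 := by
    have h2 := (Complex.imCLM.comp ((ContinuousLinearMap.snd ℝ ℝ ℂ).comp
      (ContinuousLinearMap.snd ℝ ℝ (ℝ × ℂ)))).hasFDerivAt.comp_hasDerivAt (0 : ℝ) hc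
    have h3 := hμ.mul (line_deriv w.im z.im)
    have e2 : ((Complex.imCLM.comp ((ContinuousLinearMap.snd ℝ ℝ ℂ).comp
        (ContinuousLinearMap.snd ℝ ℝ (ℝ × ℂ)))) ∘ fun t : ℝ =>
        ((s + t * σ, c + mf f c ((s, a, w) + t • (σ, b, z)) * (a - c + t * b),
        ((mf f c ((s, a, w) + t • (σ, b, z)) : ℝ) : ℂ) * (w + t * z)) : R4)) =
        ((fun t : ℝ => mf f c ((s, a, w) + t • (σ, b, z))) * fun t : ℝ => w.im + t * z.im) := by
      ext t
      simp
    rw [e2] at h2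
    have h4 := h3.unique h2
    rw [hma] at h4
    simpa using h4
  -- the derivative of the squared radius
  set D : ℝ := 2 * ((a - c) * b + w.re * z.re + w.im * z.im) with hD
  have hR : HasDerivAt (fun t : ℝ => rsq c ((s, a, w) + t • (σ, b, z))) D 0 := by
    have e2 : (fun t : ℝ => rsq c ((s, a, w) + t • (σ, b, z))) = fun t : ℝ =>
        (a - c + t * b) ^ 2 + (w.re + t * z.re) ^ 2 + (w.im + t * z.im) ^ 2 := by
      ext t
      rw [rsq_eq]
      simp
      ring
    rw [e2]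
    have h3 := (((line_deriv (a - c) b).pow 2).add ((line_deriv w.re z.re).pow 2)).add
      ((line_deriv w.im z.im).pow 2)
    refine h3.congr_deriv ?_
    simp only [zero_mul, add_zero, hD]
    ring
  have hq : HasDerivAt (fun t : ℝ => f (rsq c ((s, a, w) + t • (σ, b, z))))
      (deriv f (rsq c (s, a, w)) * D) 0 := by
    have h2 : HasDerivAt f (deriv f (rsq c (s, a, w)))
        (rsq c (((s, a, w) : R4) + (0 : ℝ) • ((σ, b, z) : R4))) := by
      rw [hline0]
      exact hf.hasDeriv _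
    exact h2.comp (0 : ℝ) hR
  have hq2 : HasDerivAt (fun t : ℝ => f (rsq c ((s, a, w) + t • (σ, b, z)))) 0 0 := by
    have h2 : HasFDerivAt (rsq c) (fderiv ℝ (rsq c) (rad f c (s, a, w)))
        (rad f c (((s, a, w) : R4) + (0 : ℝ) • ((σ, b, z) : R4))) := by
      rw [hline0]
      exact ((rsq_contDiff c).differentiable (by simp) _).hasFDerivAt
    have hc' : HasDerivAt (fun t : ℝ => rad f c ((s, a, w) + t • (σ, b, z))) 0 0 := by
      simp only [e1]
      exact hc
    have h3 := h2.comp_hasDerivAt (0 : ℝ) hc'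
    rw [map_zero] at h3
    refine h3.congr_of_eventuallyEq ?_
    have h4 : ∀ᶠ t : ℝ in 𝓝 0, ((s, a, w) : R4) + t • ((σ, b, z) : R4) ∈
        {p : R4 | 0 < rsq c p} := by
      have h5 : ContinuousAt (fun t : ℝ => ((s, a, w) : R4) + t • ((σ, b, z) : R4)) 0 :=
        hline.continuousAt
      apply h5.eventually_mem
      rw [hline0]
      exact hnhd
    filter_upwards [h4] with t ht
    exact (rsq_rad hf c _ ht).symm
  have hD0 : D = 0 := by
    have h2 := hq.unique hq2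
    rcases mul_eq_zero.1 h2 with h3 | h3
    · exact absurd h3 (hf.pos _).ne'
    · exact h3
  have hR0 : rsq c (s, a, w) = (a - c) ^ 2 + w.re ^ 2 + w.im ^ 2 := rfl
  have hμ0 : μ = 0 := by
    have h2 : μ * rsq c (s, a, w) = 0 := by
      have h3 : (μ * (a - c) + m * b) * (a - c) + (μ * w.re + m * z.re) * w.re +
          (μ * w.im + m * z.im) * w.im = μ * rsq c (s, a, w) + m * D / 2 := by
        rw [hR0, hD]
        ring
      rw [hb, hre, him, hD0] at h3
      linarith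
    rcases mul_eq_zero.1 h2 with h3 | h3
    · exact h3
    · exact absurd h3 hp.ne'
  have key : ∀ x y : ℝ, μ * x + m * y = 0 → y = 0 := by
    intro x y h
    rw [hμ0, zero_mul, zero_add] at h
    rcases mul_eq_zero.1 h with h3 | h3
    · exact absurd h3 hm0.ne'
    · exact h3
  have hb0 := key _ _ hb
  have hz : z = 0 := Complex.ext (key _ _ hre) (key _ _ him)
  rw [hσ, hb0, hz]
  rfl

theorem rad_inj (hf : Prf f) (c : ℝ) :
    InjOn (rad f c) {p : R4 | 0 < rsq c p} := by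
  intro p hp p' hp' h
  have hp : 0 < rsq c p := hp
  have hp' : 0 < rsq c p' := hp'
  have h2 : rsq c p = rsq c p' := by
    apply hf.mono.injective
    rw [← rsq_rad hf c p hp, ← rsq_rad hf c p' hp', h]
  have h3 : mf f c p = mf f c p' := by
    rw [mf, mf, h2]
  have hm := mf_pos hf c p' hp'
  rw [rad_eq, rad_eq, h3] at h
  obtain ⟨s, a, w⟩ := p
  obtain ⟨s', a', w'⟩ := p'
  simp only [Prod.mk.injEq] at h
  obtain ⟨h4, h5, h6⟩ := h
  have h7 : mf f c (s', a', w') * (a - c) = mf f c (s', a', w') * (a' - c) := by linarith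
  have h8 := mul_left_cancel₀ hm.ne' h7
  have h9 : ((mf f c (s', a', w') : ℝ) : ℂ) ≠ 0 := by exact_mod_cast hm.ne'
  have h10 := mul_left_cancel₀ h9 h6
  have h11 : a = a' := by linarith
  rw [h4, h10, h11]


/-- the radial map is an embedding off the vertical line -/
theorem rad_embOn (hf : Prf f) (c : ℝ) :
    EmbOn Pool.Agent.Helper70.BI.I4 (rad f c) {p : R4 | 0 < rsq c p} := by
  rw [Pool.Agent.Helper70.BI.embOn_iff]
  refine ⟨fun p hp => ⟨?_, ?_⟩, rad_inj hf c⟩
  · filter_upwards [(isOpen_pos c).mem_nhds hp] with q hq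
    exact (rad_contDiffOn hf c).contDiffAt ((isOpen_pos c).mem_nhds hq)
  · intro v v' h
    have h1 : fderiv ℝ (rad f c) p (v - v') = 0 := by rw [map_sub, h, sub_self]
    exact sub_eq_zero.1 (rad_fderiv hf c p _ hp h1)

/-! ### the profile -/

/-- the two-sided profile: the identity near `1/25`, with small derivative away from `1/25` -/
noncomputable def fr (δ q : ℝ) : ℝ :=
  q + (1 - δ) * δ * ramp ((1 / 25 - δ - q) / δ) - (1 - δ) * δ * ramp ((q - (1 / 25 + δ)) / δ)

theorem fr_deriv {δ : ℝ} (h0 : 0 < δ) (q : ℝ) :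
    HasDerivAt (fr δ) (1 - (1 - δ) * step ((1 / 25 - δ - q) / δ) -
      (1 - δ) * step ((q - (1 / 25 + δ)) / δ)) q := by
  have h1 : HasDerivAt (fun q : ℝ => (1 / 25 - δ - q) / δ) (-1 / δ) q := by
    have := ((hasDerivAt_id q).const_sub (1 / 25 - δ)).div_const δ
    simpa using this
  have h2 : HasDerivAt (fun q : ℝ => (q - (1 / 25 + δ)) / δ) (1 / δ) q := by
    have := ((hasDerivAt_id q).sub_const (1 / 25 + δ)).div_const δ
    simpa using this
  have h3 := ((m_R0.2.1 ((1 / 25 - δ - q) / δ)).comp q h1).const_mul ((1 - δ) * δ)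
  have h4 := ((m_R0.2.1 ((q - (1 / 25 + δ)) / δ)).comp q h2).const_mul ((1 - δ) * δ)
  have h5 := ((hasDerivAt_id q).add h3).sub h4
  refine h5.congr_deriv ?_
  field_simp
  ring

theorem fr_smooth (δ : ℝ) : ContDiff ℝ ∞ (fr δ) := by
  have h1 : ContDiff ℝ ∞ (fun q : ℝ => ramp ((1 / 25 - δ - q) / δ)) :=
    m_R0.1.comp (by fun_prop)
  have h2 : ContDiff ℝ ∞ (fun q : ℝ => ramp ((q - (1 / 25 + δ)) / δ)) :=
    m_R0.1.comp (by fun_prop)
  exact (contDiff_id.add (contDiff_const.mul h1)).sub (contDiff_const.mul h2)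

theorem fr_eq {δ : ℝ} (h0 : 0 < δ) {q : ℝ} (h1 : 1 / 25 - δ ≤ q) (h2 : q ≤ 1 / 25 + δ) :
    fr δ q = q := by
  have h3 : ramp ((1 / 25 - δ - q) / δ) = 0 :=
    m_R0.2.2.1 _ (div_nonpos_of_nonpos_of_nonneg (by linarith) h0.le)
  have h4 : ramp ((q - (1 / 25 + δ)) / δ) = 0 :=
    m_R0.2.2.1 _ (div_nonpos_of_nonpos_of_nonneg (by linarith) h0.le)
  unfold fr
  rw [h3, h4]
  ring

/-- bounds of the profile -/
theorem fr_bounds {δ : ℝ} (h0 : 0 < δ) (h1 : δ < 1 / 100) {q : ℝ} (hq : 0 ≤ q) (hq' : q ≤ 9) :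
    1 / 25 - 3 * δ ≤ fr δ q ∧ fr δ q ≤ 1 / 25 + 12 * δ := by
  obtain ⟨-, -, r0, rn, rl, ru⟩ := m_R0
  have hp : 0 < (1 - δ) * δ := mul_pos (by linarith) h0
  rcases le_total q (1 / 25) with hle | hle
  · have h4 : ramp ((q - (1 / 25 + δ)) / δ) = 0 :=
      r0 _ (div_nonpos_of_nonpos_of_nonneg (by linarith) h0.le)
    unfold fr
    rw [h4, mul_zero, sub_zero]
    set x := (1 / 25 - δ - q) / δ with hx
    have ex : x * δ = 1 / 25 - δ - q := div_mul_cancel₀ _ h0.ne'
    have l1 := rl x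
    have l2 := rn x
    have k1 := mul_le_mul_of_nonneg_left l1 hp.le
    constructor
    · have : (1 - δ) * δ * (x - 1) = (1 - δ) * (1 / 25 - δ - q) - (1 - δ) * δ := by
        rw [← ex]; ring
      nlinarith
    · rcases le_total x 0 with hx0 | hx0
      · rw [r0 x hx0]
        linarith
      · have l3 := ru x hx0
        have k3 := mul_le_mul_of_nonneg_left l3 hp.le
        have : (1 - δ) * δ * x = (1 - δ) * (1 / 25 - δ - q) := by rw [← ex]; ring
        nlinarith
  · have h4 : ramp ((1 / 25 - δ - q) / δ) = 0 :=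
      r0 _ (div_nonpos_of_nonpos_of_nonneg (by linarith) h0.le)
    unfold fr
    rw [h4, mul_zero, add_zero]
    set x := (q - (1 / 25 + δ)) / δ with hx
    have ex : x * δ = q - (1 / 25 + δ) := div_mul_cancel₀ _ h0.ne'
    have l1 := rl x
    have l2 := rn x
    have k1 := mul_le_mul_of_nonneg_left l1 hp.le
    constructor
    · rcases le_total x 0 with hx0 | hx0
      · rw [r0 x hx0]
        linarith
      · have l3 := ru x hx0
        have k3 := mul_le_mul_of_nonneg_left l3 hp.le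
        have : (1 - δ) * δ * x = (1 - δ) * (q - (1 / 25 + δ)) := by rw [← ex]; ring
        have h7 : 0 ≤ δ * (q - (1 / 25 + δ)) := by
          rw [← ex]
          positivity
        nlinarith
    · have : (1 - δ) * δ * (x - 1) = (1 - δ) * (q - (1 / 25 + δ)) - (1 - δ) * δ := by
        rw [← ex]; ring
      nlinarith

theorem fr_pos0 {δ : ℝ} (h0 : 0 < δ) (h1 : δ < 1 / 100) {q : ℝ} (hq : 0 ≤ q) : 0 < fr δ q := by
  rcases le_total q 9 with h | h
  · have := (fr_bounds h0 h1 hq h).1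
    linarith
  · obtain ⟨-, -, r0, rn, rl, ru⟩ := m_R0
    have hp : 0 < (1 - δ) * δ := mul_pos (by linarith) h0
    have h4 : ramp ((1 / 25 - δ - q) / δ) = 0 :=
      r0 _ (div_nonpos_of_nonpos_of_nonneg (by linarith) h0.le)
    unfold fr
    rw [h4, mul_zero, add_zero]
    set x := (q - (1 / 25 + δ)) / δ with hx
    have ex : x * δ = q - (1 / 25 + δ) := div_mul_cancel₀ _ h0.ne'
    have hx0 : 0 ≤ x := by rw [hx]; apply div_nonneg _ h0.le; linarith
    have l3 := ru x hx0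
    have k3 := mul_le_mul_of_nonneg_left l3 hp.le
    have : (1 - δ) * δ * x = (1 - δ) * (q - (1 / 25 + δ)) := by rw [← ex]; ring
    nlinarith

theorem fr_prf {δ : ℝ} (h0 : 0 < δ) (h1 : δ < 1 / 100) : Prf (fr δ) := by
  refine ⟨fr_smooth δ, fun q => ?_, fun q hq => fr_pos0 h0 h1 hq.le⟩
  rw [(fr_deriv h0 q).deriv]
  have s1 := step_mem ((1 / 25 - δ - q) / δ)
  have s2 := step_mem ((q - (1 / 25 + δ)) / δ)
  have hd : 0 < 1 - δ := by linarith
  rcases le_total q (1 / 25) with hle | hle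
  · have h4 : step ((q - (1 / 25 + δ)) / δ) = 0 :=
      step_of_nonpos (div_nonpos_of_nonpos_of_nonneg (by linarith) h0.le)
    rw [h4]
    nlinarith [s1.2, s1.1]
  · have h4 : step ((1 / 25 - δ - q) / δ) = 0 :=
      step_of_nonpos (div_nonpos_of_nonpos_of_nonneg (by linarith) h0.le)
    rw [h4]
    nlinarith [s2.2, s2.1]

theorem rad_id {δ : ℝ} (h0 : 0 < δ) {c : ℝ} {p : R4} (h1 : 1 / 25 - δ ≤ rsq c p)
    (h2 : rsq c p ≤ 1 / 25 + δ) (hp : 0 < rsq c p) : rad (fr δ) c p = p := by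
  have hm : mf (fr δ) c p = 1 := by
    unfold mf
    rw [fr_eq h0 h1 h2, div_self hp.ne', Real.sqrt_one]
  rw [rad_eq, hm]
  refine Prod.ext rfl (Prod.ext ?_ ?_)
  · show c + 1 * (p.2.1 - c) = p.2.1
    ring
  · show ((1 : ℝ) : ℂ) * p.2.2 = p.2.2
    rw [Complex.ofReal_one, one_mul]

end Rad

end Pool.Agent.Helper27.R
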